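import Mathlib

/-!
# Values of `n + σ(n)` in windows `(x, x + h)`, `h ≥ x / (log x) ^ θ`, `θ < 1/2`
-/

set_option autoImplicit false
open Filter Topology

namespace Pool.Agent.Helper19.OWN.SigmaWin

/-- Truncated abundancy index: the sum of `1/d` over the divisors `d ≤ y` of `n`. -/
noncomputable def low (y n : ℕ) : ℝ :=
  ∑ d ∈ (Finset.Icc 1 y).filter (fun d => d ∣ n), (1 : ℝ) / (d : ℝ)

/-- The tail of the abundancy index: the sum of `1/d` over the divisors `d > y` of `n`. -/
noncomputable def tail (y n : ℕ) : ℝ :=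
  ∑ d ∈ n.divisors.filter (fun d => y < d), (1 : ℝ) / (d : ℝ)

lemma tail_nonneg (y n : ℕ) : 0 ≤ tail y n :=
  Finset.sum_nonneg (fun d _ => by positivity)

lemma one_le_low (y n : ℕ) (hy : 1 ≤ y) : 1 ≤ low y n := by
  unfold low
  have h := Finset.single_le_sum (f := fun d : ℕ => (1 : ℝ) / (d : ℝ))
    (s := (Finset.Icc 1 y).filter (fun d => d ∣ n)) (fun d _ => by positivity)
    (a := 1) (by simp [hy])
  simpa using h

/-- The truncated index is periodic modulo `y !`. -/
lemma low_mod (y n : ℕ) : low y n = low y (n % y.factorial) := by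
  unfold low
  have h : (Finset.Icc 1 y).filter (fun d => d ∣ n)
      = (Finset.Icc 1 y).filter (fun d => d ∣ n % y.factorial) := by
    apply Finset.filter_congr
    intro d hd
    rw [Finset.mem_Icc] at hd
    have hdv : d ∣ y.factorial := Nat.dvd_factorial (by omega) hd.2
    rw [Nat.dvd_mod_iff hdv]
  rw [h]

/-- `σ(n) / n` splits into the truncated index and the tail. -/
lemma sigma_eq (y n : ℕ) (hn : 1 ≤ n) :
    ((ArithmeticFunction.sigma 1 n : ℕ) : ℝ) = n * (low y n + tail y n) := by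
  rw [ArithmeticFunction.sigma_one_apply]
  have h1 : (∑ d ∈ n.divisors, d) = ∑ d ∈ n.divisors, n / d :=
    (Nat.sum_div_divisors n (fun d => d)).symm
  rw [h1]
  push_cast
  have h2 : ∀ d ∈ n.divisors, ((n / d : ℕ) : ℝ) = n * (1 / (d : ℝ)) := by
    intro d hd
    have hdn : d ∣ n := Nat.dvd_of_mem_divisors hd
    have hd0 : (d : ℝ) ≠ 0 := by
      have : d ≠ 0 := by
        rintro rfl
        have := Nat.pos_of_mem_divisors hd
        omega
      exact_mod_cast this
    rw [Nat.cast_div hdn hd0]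
    ring
  rw [Finset.sum_congr rfl h2, ← Finset.mul_sum]
  congr 1
  unfold low tail
  rw [← Finset.sum_filter_not_add_sum_filter n.divisors (fun d => y < d)]
  congr 1
  apply Finset.sum_congr _ (fun _ _ => rfl)
  ext d
  simp only [Finset.mem_filter, Nat.mem_divisors, Finset.mem_Icc, not_lt]
  constructor
  · rintro ⟨⟨h1, h2⟩, h3⟩
    exact ⟨⟨Nat.pos_of_dvd_of_pos h1 hn, h3⟩, h1⟩
  · rintro ⟨⟨h1, h2⟩, h3⟩
    exact ⟨⟨h3, by omega⟩, h2⟩

lemma le_sigma (n : ℕ) : (n : ℝ) ≤ ((ArithmeticFunction.sigma 1 n : ℕ) : ℝ) := by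
  rcases Nat.eq_zero_or_pos n with rfl | hn
  · simp
  rw [ArithmeticFunction.sigma_one_apply]
  have : n ≤ ∑ d ∈ n.divisors, d :=
    Finset.single_le_sum (f := fun d => d) (fun _ _ => Nat.zero_le _)
      (Nat.mem_divisors_self n (by omega))
  exact_mod_cast this

/-- The tail is small on average. -/
lemma sum_tail_le (y x : ℕ) (hy : 1 ≤ y) :
    ∑ n ∈ Finset.Ioc 0 x, tail y n ≤ (x : ℝ) / y := by
  have h1 : ∀ n ∈ Finset.Ioc 0 x, tail y n
      = ∑ d ∈ Finset.Ioc y x, if d ∣ n then (1 : ℝ) / d else 0 := by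
    intro n hn
    rw [Finset.mem_Ioc] at hn
    unfold tail
    rw [← Finset.sum_filter]
    apply Finset.sum_congr _ (fun _ _ => rfl)
    ext d
    simp only [Finset.mem_filter, Nat.mem_divisors, Finset.mem_Ioc]
    constructor
    · rintro ⟨⟨h1, h2⟩, h3⟩
      exact ⟨⟨h3, le_trans (Nat.le_of_dvd hn.1 h1) hn.2⟩, h1⟩
    · rintro ⟨⟨h1, h2⟩, h3⟩
      exact ⟨⟨h3, by omega⟩, h1⟩
  rw [Finset.sum_congr rfl h1, Finset.sum_comm]
  have h2 : ∀ d ∈ Finset.Ioc y x,
      (∑ n ∈ Finset.Ioc 0 x, if d ∣ n then (1 : ℝ) / d else 0) ≤ x * ((d : ℝ) ^ 2)⁻¹ := by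
    intro d hd
    rw [Finset.mem_Ioc] at hd
    rw [← Finset.sum_filter, Finset.sum_const, Nat.Ioc_filter_dvd_card_eq_div, nsmul_eq_mul]
    have hd0 : (0 : ℝ) < d := by
      have : 0 < d := by omega
      exact_mod_cast this
    have h3 : ((x / d : ℕ) : ℝ) ≤ (x : ℝ) / d := Nat.cast_div_le
    calc ((x / d : ℕ) : ℝ) * (1 / (d : ℝ)) ≤ (x : ℝ) / d * (1 / (d : ℝ)) := by
          apply mul_le_mul_of_nonneg_right h3; positivity
      _ = x * ((d : ℝ) ^ 2)⁻¹ := by field_simp
  refine (Finset.sum_le_sum h2).trans ?_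
  rw [← Finset.mul_sum]
  rcases le_total y x with hyx | hyx
  · have h4 : ∑ i ∈ Finset.Ioc y x, ((i : ℝ) ^ 2)⁻¹ ≤ (y : ℝ)⁻¹ - (x : ℝ)⁻¹ :=
      sum_Ioc_inv_sq_le_sub (by omega) hyx
    have h5 : (0 : ℝ) ≤ (x : ℝ)⁻¹ := by positivity
    calc (x : ℝ) * ∑ i ∈ Finset.Ioc y x, ((i : ℝ) ^ 2)⁻¹ ≤ x * (y : ℝ)⁻¹ := by
          apply mul_le_mul_of_nonneg_left _ (by positivity); linarith
      _ = x / y := by rw [div_eq_mul_inv]
  · rw [Finset.Ioc_eq_empty (by omega)]
    simp only [Finset.sum_empty, mul_zero]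
    positivity

/-- Integers in a residue class and in an open interval. -/
lemma card_ap_le (x L r : ℕ) (hL : 1 ≤ L) (u v : ℝ) (huv : u ≤ v) :
    (((Finset.range x).filter (fun n => n % L = r ∧ u < (n : ℝ) ∧ (n : ℝ) < v)).card : ℝ)
      ≤ (v - u) / L + 2 := by
  have hL0 : (0 : ℝ) < L := by exact_mod_cast hL
  have hsub : ((Finset.range x).filter (fun n => n % L = r ∧ u < (n : ℝ) ∧ (n : ℝ) < v)).card
      ≤ (Finset.Ioc ⌊u / L - 1⌋ ⌊v / L⌋).card := by
    apply Finset.card_le_card_of_injOn (fun n : ℕ => ((n / L : ℕ) : ℤ))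
    · intro n hn
      simp only [Finset.coe_filter, Finset.mem_range, Set.mem_ofPred_eq] at hn
      obtain ⟨_, _, h3, h4⟩ := hn
      simp only [Finset.coe_Ioc, Set.mem_Ioc]
      have hle : ((n / L : ℕ) : ℝ) ≤ (n : ℝ) / L := Nat.cast_div_le
      have hlt : (n : ℝ) / L - 1 < ((n / L : ℕ) : ℝ) := by
        have h5 : n < L * (n / L + 1) := Nat.lt_mul_div_succ n hL
        have h6 : (n : ℝ) < L * (((n / L : ℕ) : ℝ) + 1) := by exact_mod_cast h5
        rw [sub_lt_iff_lt_add, div_lt_iff₀ hL0]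
        linarith
      constructor
      · rw [Int.floor_lt, Int.cast_natCast]
        have : u / L < (n : ℝ) / L := div_lt_div_of_pos_right h3 hL0
        linarith
      · rw [Int.le_floor, Int.cast_natCast]
        have : (n : ℝ) / L < v / L := div_lt_div_of_pos_right h4 hL0
        linarith
    · intro a ha b hb hab
      simp only [Finset.coe_filter, Finset.mem_range, Set.mem_ofPred_eq] at ha hb
      have h1 : a / L = b / L := Int.natCast_inj.mp hab
      have h2 := Nat.div_add_mod a L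
      have h3 := Nat.div_add_mod b L
      rw [← h2, ← h3, h1, ha.2.1, hb.2.1]
  have h1 : (((Finset.range x).filter
      (fun n => n % L = r ∧ u < (n : ℝ) ∧ (n : ℝ) < v)).card : ℝ)
      ≤ ((Finset.Ioc ⌊u / L - 1⌋ ⌊v / L⌋).card : ℝ) := by exact_mod_cast hsub
  refine h1.trans ?_
  rw [Int.card_Ioc]
  have hnn : (0 : ℝ) ≤ (v - u) / L + 2 := by
    have : 0 ≤ (v - u) / L := div_nonneg (by linarith) hL0.le
    linarith
  have h2 : (((⌊v / L⌋ - ⌊u / L - 1⌋).toNat : ℤ) : ℝ) ≤ (v - u) / L + 2 := by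
    rw [Int.toNat_eq_max]
    push_cast
    apply max_le _ hnn
    have h3 : (⌊v / L⌋ : ℝ) ≤ v / L := Int.floor_le _
    have h4 : u / L - 1 < (⌊u / L - 1⌋ : ℝ) + 1 := Int.lt_floor_add_one _
    have h5 : (v - u) / L = v / L - u / L := sub_div _ _ _
    linarith
  exact_mod_cast h2

/-- The finite estimate: with a cut `y` and a level `η`. -/
lemma count (y : ℕ) (hy : 1 ≤ y) (η : ℝ) (hη : 0 < η) (x : ℕ) (h : ℝ) (hh : 0 ≤ h) :
    ∃ T : Finset ℕ,
      (∀ n : ℕ, 0 < n → (x : ℝ) < (n : ℝ) + ((ArithmeticFunction.sigma 1 n : ℕ) : ℝ) →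
        (n : ℝ) + ((ArithmeticFunction.sigma 1 n : ℕ) : ℝ) < (x : ℝ) + h → n ∈ T) ∧
      (T.card : ℝ) ≤ h / 2 + η * (x + h) / 4 + (x + h) / (2 * y * η) + 2 * y.factorial := by
  have hy0 : (0 : ℝ) < y := by exact_mod_cast hy
  have hx0 : (0 : ℝ) ≤ x := Nat.cast_nonneg x
  set L := y.factorial with hLdef
  have hL : 1 ≤ L := Nat.factorial_pos y
  have hL0 : (0 : ℝ) < L := by exact_mod_cast hL
  let z : ℝ := η * (x + h) / 2
  have hz : 0 ≤ z := by positivity
  let M : ℕ := ⌊((x : ℝ) + h) / 2⌋₊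
  have hM : (M : ℝ) ≤ (x + h) / 2 := Nat.floor_le (by positivity)
  let u : ℕ → ℝ := fun r => (x - z) / (1 + low y r)
  let v : ℕ → ℝ := fun r => (x + h) / (1 + low y r)
  let E : Finset ℕ := (Finset.Ioc 0 M).filter (fun n => η ≤ tail y n)
  let A : ℕ → Finset ℕ := fun r =>
    (Finset.range (M + 1)).filter (fun n => n % L = r ∧ u r < (n : ℝ) ∧ (n : ℝ) < v r)
  refine ⟨E ∪ (Finset.range L).biUnion A, ?_, ?_⟩
  · intro n hn1 h1 h2
    have hn0 : (0 : ℝ) < n := by exact_mod_cast hn1
    have hσ := sigma_eq y n hn1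
    have hσn := le_sigma n
    have hn2 : (n : ℝ) ≤ (x + h) / 2 := by linarith
    have hnM : n ≤ M := Nat.le_floor hn2
    by_cases hE : η ≤ tail y n
    · apply Finset.mem_union_left
      simp only [E, Finset.mem_filter, Finset.mem_Ioc]
      exact ⟨⟨hn1, hnM⟩, hE⟩
    · apply Finset.mem_union_right
      rw [Finset.mem_biUnion]
      refine ⟨n % L, Finset.mem_range.mpr (Nat.mod_lt _ hL), ?_⟩
      simp only [A, Finset.mem_filter, Finset.mem_range]
      have hlow : low y (n % L) = low y n := (low_mod y n).symm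
      have hpos : (0 : ℝ) < 1 + low y n := by
        have := one_le_low y n hy
        linarith
      have htn := tail_nonneg y n
      push Not at hE
      refine ⟨by omega, trivial, ?_, ?_⟩
      · simp only [u]
        rw [hlow, div_lt_iff₀ hpos]
        have h3 : (n : ℝ) * tail y n ≤ (x + h) / 2 * η :=
          mul_le_mul hn2 hE.le htn (by positivity)
        have h4 : z = (x + h) / 2 * η := by simp only [z]; ring
        rw [hσ] at h1
        rw [h4]
        nlinarith
      · simp only [v]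
        rw [hlow, lt_div_iff₀ hpos]
        rw [hσ] at h2
        have h3 : 0 ≤ (n : ℝ) * tail y n := by positivity
        nlinarith
  · have hEcard : (E.card : ℝ) ≤ (x + h) / (2 * y * η) := by
      have h1 : (E.card : ℝ) * η ≤ ∑ n ∈ E, tail y n := by
        have := Finset.card_nsmul_le_sum E (fun n => tail y n) η (fun n hn => by
          simp only [E, Finset.mem_filter] at hn
          exact hn.2)
        rwa [nsmul_eq_mul] at this
      have h2 : ∑ n ∈ E, tail y n ≤ ∑ n ∈ Finset.Ioc 0 M, tail y n :=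
        Finset.sum_le_sum_of_subset_of_nonneg (Finset.filter_subset _ _)
          (fun n _ _ => tail_nonneg y n)
      have h3 := sum_tail_le y M hy
      have h4 : (M : ℝ) / y ≤ (x + h) / 2 / y := div_le_div_of_nonneg_right hM hy0.le
      rw [le_div_iff₀ (by positivity)]
      have h5 : (E.card : ℝ) * η ≤ (x + h) / 2 / y := h1.trans (h2.trans (h3.trans h4))
      rw [le_div_iff₀ hy0] at h5
      nlinarith
    have hA : ∀ r ∈ Finset.range L, ((A r).card : ℝ) ≤ (h + z) / 2 / L + 2 := by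
      intro r _
      have hpos : (1 : ℝ) ≤ low y r := one_le_low y r hy
      have hpos2 : (0 : ℝ) < 1 + low y r := by linarith
      have huv : u r ≤ v r := by
        simp only [u, v]
        apply div_le_div_of_nonneg_right _ hpos2.le
        linarith
      refine (card_ap_le (M + 1) L r hL (u r) (v r) huv).trans ?_
      have h1 : v r - u r ≤ (h + z) / 2 := by
        simp only [u, v]
        rw [← sub_div]
        have h2 : ((x : ℝ) + h - (x - z)) = h + z := by ring
        rw [h2]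
        apply div_le_div_of_nonneg_left (by positivity) (by norm_num)
        linarith
      have h3 : (v r - u r) / L ≤ (h + z) / 2 / L := div_le_div_of_nonneg_right h1 hL0.le
      linarith
    have hU : (((Finset.range L).biUnion A).card : ℝ) ≤ (h + z) / 2 + 2 * L := by
      have h1 : ((Finset.range L).biUnion A).card ≤ ∑ r ∈ Finset.range L, (A r).card :=
        Finset.card_biUnion_le
      have h2 : (((Finset.range L).biUnion A).card : ℝ)
          ≤ ∑ r ∈ Finset.range L, ((A r).card : ℝ) := by exact_mod_cast h1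
      refine h2.trans ((Finset.sum_le_sum hA).trans ?_)
      rw [Finset.sum_const, Finset.card_range, nsmul_eq_mul]
      have h3 : (L : ℝ) * ((h + z) / 2 / L + 2) = (h + z) / 2 + 2 * L := by
        field_simp
      rw [h3]
    have hT : ((E ∪ (Finset.range L).biUnion A).card : ℝ)
        ≤ (E.card : ℝ) + (((Finset.range L).biUnion A).card : ℝ) := by
      exact_mod_cast Finset.card_union_le _ _
    have hz2 : z / 2 = η * (x + h) / 4 := by simp only [z]; ring
    linarith

end Pool.Agent.Helper19.OWN.SigmaWin
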