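import Pool.Agent.Helper19.OWN.SigmaWin

/-!
# Values of `n + σ(n)` in windows: the asymptotic form
-/

set_option autoImplicit false
open Filter Topology

namespace Pool.Agent.Helper19.OWN.SigmaWin

lemma ev_t (θ δ : ℝ) (h0 : 0 < θ) (h1 : θ < 1 / 2) :
    ∀ᶠ t : ℝ in atTop, 1 ≤ t ∧ 8 * t ^ (2 * θ) / δ ^ 2 + 1 ≤ t ^ (θ + 1 / 2) ∧
      Real.log (4 / δ) + θ * Real.log t + (θ + 1 / 2) * Real.log t * t ^ (θ + 1 / 2) ≤ t := by
  set a : ℝ := θ + 1 / 2 with ha
  have ha0 : 0 < a := by linarith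
  have ha1 : a < 1 := by linarith
  set b : ℝ := (1 - a) / 2 with hb
  have hb0 : 0 < b := by linarith
  have e1 : ∀ᶠ t : ℝ in atTop, 1 ≤ t := eventually_ge_atTop 1
  have e2 : ∀ᶠ t : ℝ in atTop, 8 / δ ^ 2 + 1 ≤ t ^ (1 / 2 - θ) :=
    (tendsto_rpow_atTop (by linarith)).eventually_ge_atTop _
  have e3 : ∀ᶠ t : ℝ in atTop, ‖Real.log t‖ ≤ 1 * ‖t ^ b‖ :=
    (isLittleO_log_rpow_atTop hb0).bound one_pos
  have e4 : ∀ᶠ t : ℝ in atTop, 4 ≤ t ^ b := (tendsto_rpow_atTop hb0).eventually_ge_atTop _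
  have e5 : ∀ᶠ t : ℝ in atTop, 4 * Real.log (4 / δ) ≤ t := eventually_ge_atTop _
  filter_upwards [e1, e2, e3, e4, e5] with t k1 k2 k3 k4 k5
  have ht0 : 0 < t := by linarith
  refine ⟨k1, ?_, ?_⟩
  · have h2 : t ^ a = t ^ (1 / 2 - θ) * t ^ (2 * θ) := by
      rw [← Real.rpow_add ht0]
      congr 1
      rw [ha]
      ring
    have h3 : 1 ≤ t ^ (2 * θ) := Real.one_le_rpow k1 (by linarith)
    have h4 : (8 / δ ^ 2 + 1) * t ^ (2 * θ) ≤ t ^ (1 / 2 - θ) * t ^ (2 * θ) :=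
      mul_le_mul_of_nonneg_right k2 (by linarith)
    rw [h2]
    have h5 : 8 * t ^ (2 * θ) / δ ^ 2 = 8 / δ ^ 2 * t ^ (2 * θ) := by ring
    rw [h5]
    linarith
  · have hl0 : 0 ≤ Real.log t := Real.log_nonneg k1
    have hp : 0 < t ^ b := Real.rpow_pos_of_pos ht0 _
    rw [Real.norm_of_nonneg hl0, Real.norm_of_nonneg hp.le, one_mul] at k3
    have hpa : 0 < t ^ a := Real.rpow_pos_of_pos ht0 _
    have hpa1 : 1 ≤ t ^ a := Real.one_le_rpow k1 ha0.le
    have h6 : t ^ b * t ^ a * t ^ b = t := by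
      rw [← Real.rpow_add ht0, ← Real.rpow_add ht0]
      have : b + a + b = 1 := by rw [hb]; ring
      rw [this, Real.rpow_one]
    have h7 : t ^ b * t ^ a ≤ t / 4 := by
      have : t ^ b * t ^ a * 4 ≤ t ^ b * t ^ a * t ^ b :=
        mul_le_mul_of_nonneg_left k4 (by positivity)
      linarith
    have h8 : Real.log t * t ^ a ≤ t / 4 :=
      (mul_le_mul_of_nonneg_right k3 hpa.le).trans h7
    have h9 : Real.log t ≤ Real.log t * t ^ a := le_mul_of_one_le_right hl0 hpa1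
    have h10 : θ * Real.log t ≤ t / 4 := by nlinarith
    have h11 : a * Real.log t * t ^ a ≤ t / 4 := by
      have : a * (Real.log t * t ^ a) ≤ 1 * (Real.log t * t ^ a) :=
        mul_le_mul_of_nonneg_right ha1.le (by positivity)
      linarith
    linarith

lemma window (θ δ : ℝ) (h0 : 0 < θ) (h1 : θ < 1 / 2) (hδ : 0 < δ) :
    ∀ᶠ x : ℕ in atTop, ∀ h : ℝ, (x : ℝ) / Real.log x ^ θ ≤ h →
      ∃ T : Finset ℕ,
        (∀ n : ℕ, 0 < n → (x : ℝ) < (n : ℝ) + ((ArithmeticFunction.sigma 1 n : ℕ) : ℝ) →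
          (n : ℝ) + ((ArithmeticFunction.sigma 1 n : ℕ) : ℝ) < (x : ℝ) + h → n ∈ T) ∧
        (T.card : ℝ) ≤ (1 / 2 + δ) * h := by
  have hlog : Tendsto (fun x : ℕ => Real.log (x : ℝ)) atTop atTop :=
    Real.tendsto_log_atTop.comp tendsto_natCast_atTop_atTop
  filter_upwards [hlog.eventually (ev_t θ δ h0 h1), eventually_ge_atTop 1] with x hx hx1
  obtain ⟨k1, k2, k3⟩ := hx
  intro h hh
  set t : ℝ := Real.log (x : ℝ) with ht
  have ht0 : 0 < t := by linarith
  have hx0 : (0 : ℝ) < x := by exact_mod_cast hx1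
  have hxe : (x : ℝ) = Real.exp t := (Real.exp_log hx0).symm
  have hG : 0 < t ^ θ := Real.rpow_pos_of_pos ht0 _
  have hG1 : 1 ≤ t ^ θ := Real.one_le_rpow k1 h0.le
  have hxh : (x : ℝ) ≤ h * t ^ θ := by rwa [div_le_iff₀ hG] at hh
  have hh0 : 0 < h := lt_of_lt_of_le (by positivity) hh
  set a : ℝ := θ + 1 / 2 with ha
  have hpa : 0 < t ^ a := Real.rpow_pos_of_pos ht0 _
  set Q : ℝ := t ^ θ + 1 with hQ
  have hQ0 : 0 < Q := by linarith
  have hxQ : (x : ℝ) + h ≤ h * Q := by rw [hQ]; linarith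
  have hsq : t ^ (2 * θ) = t ^ θ * t ^ θ := by
    rw [← Real.rpow_add ht0]; congr 1; ring
  let y : ℕ := ⌊t ^ a⌋₊
  have hy2 : (y : ℝ) ≤ t ^ a := Nat.floor_le hpa.le
  have hy3 : t ^ a < (y : ℝ) + 1 := Nat.lt_floor_add_one _
  have hy4 : 8 * t ^ (2 * θ) / δ ^ 2 < y := by linarith
  have hy0 : (0 : ℝ) < y := lt_of_le_of_lt (by positivity) hy4
  have hy1 : 1 ≤ y := by exact_mod_cast hy0
  have hy5 : 2 * Q ^ 2 ≤ δ ^ 2 * y := by
    rw [div_lt_iff₀ (by positivity)] at hy4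
    have : Q ^ 2 ≤ 4 * (t ^ θ * t ^ θ) := by
      rw [hQ]; nlinarith
    rw [hsq] at hy4
    nlinarith
  obtain ⟨T, hT1, hT2⟩ := count y hy1 (δ / Q) (by positivity) x h hh0.le
  refine ⟨T, hT1, hT2.trans ?_⟩
  have b1 : δ / Q * (x + h) / 4 ≤ δ * h / 4 := by
    have : δ / Q * (x + h) ≤ δ / Q * (h * Q) :=
      mul_le_mul_of_nonneg_left hxQ (by positivity)
    have e : δ / Q * (h * Q) = δ * h := by field_simp
    linarith
  have b2 : ((x : ℝ) + h) / (2 * y * (δ / Q)) ≤ δ * h / 4 := by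
    rw [div_le_iff₀ (by positivity)]
    have e : δ * h / 4 * (2 * y * (δ / Q)) = h * (δ ^ 2 * y) / (2 * Q) := by
      field_simp
      ring
    rw [e, le_div_iff₀ (by positivity)]
    have h3 : ((x : ℝ) + h) * (2 * Q) ≤ h * Q * (2 * Q) :=
      mul_le_mul_of_nonneg_right hxQ (by positivity)
    have h4 : h * (2 * Q ^ 2) ≤ h * (δ ^ 2 * y) := mul_le_mul_of_nonneg_left hy5 hh0.le
    nlinarith
  have b3 : 2 * (y.factorial : ℝ) ≤ δ * h / 2 := by
    have c1 : (y.factorial : ℝ) ≤ (y : ℝ) ^ y := by exact_mod_cast Nat.factorial_le_pow y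
    have c2 : (y : ℝ) ^ y = Real.exp (Real.log y * y) := by
      rw [← Real.rpow_natCast, Real.rpow_def_of_pos hy0]
    have c3 : Real.log y ≤ a * Real.log t := by
      have := Real.log_le_log hy0 hy2
      rwa [Real.log_rpow ht0] at this
    have c4 : Real.log y * y ≤ a * Real.log t * t ^ a := by
      apply mul_le_mul c3 hy2 hy0.le
      have hl : 0 ≤ Real.log y := Real.log_natCast_nonneg y
      linarith
    have c5 : (y.factorial : ℝ) ≤ Real.exp (a * Real.log t * t ^ a) := by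
      rw [c2] at c1
      exact c1.trans (Real.exp_le_exp.mpr c4)
    have c6 : 4 / δ * (t ^ θ * Real.exp (a * Real.log t * t ^ a)) ≤ x := by
      have d1 : (4 / δ : ℝ) = Real.exp (Real.log (4 / δ)) := (Real.exp_log (by positivity)).symm
      have d2 : t ^ θ = Real.exp (θ * Real.log t) := by
        rw [Real.rpow_def_of_pos ht0, mul_comm]
      rw [d1, d2, ← Real.exp_add, ← Real.exp_add, hxe]
      apply Real.exp_le_exp.mpr
      linarith
    have c7 : 4 / δ * (t ^ θ * Real.exp (a * Real.log t * t ^ a)) ≤ h * t ^ θ := c6.trans hxh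
    have c8 : 4 / δ * Real.exp (a * Real.log t * t ^ a) ≤ h := by
      have e : 4 / δ * (t ^ θ * Real.exp (a * Real.log t * t ^ a))
          = 4 / δ * Real.exp (a * Real.log t * t ^ a) * t ^ θ := by ring
      rw [e] at c7
      exact le_of_mul_le_mul_right c7 hG
    have c9 : 4 * Real.exp (a * Real.log t * t ^ a) ≤ δ * h := by
      have e : δ * (4 / δ * Real.exp (a * Real.log t * t ^ a))
          = 4 * Real.exp (a * Real.log t * t ^ a) := by field_simp
      rw [← e]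
      exact mul_le_mul_of_nonneg_left c8 hδ.le
    linarith
  linarith

lemma F_top (θ : ℝ) :
    Tendsto (fun x : ℕ => (x : ℝ) / Real.log x ^ θ) atTop atTop := by
  have h2 : ∀ᶠ t : ℝ in atTop, t ≤ Real.exp t / t ^ θ := by
    have e1 := (isLittleO_rpow_exp_atTop (s := 1 + θ)).bound one_pos
    filter_upwards [e1, eventually_ge_atTop 1] with t ht ht1
    have ht0 : 0 < t := by linarith
    rw [Real.norm_of_nonneg (by positivity), Real.norm_of_nonneg (by positivity), one_mul] at ht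
    rw [le_div_iff₀ (by positivity)]
    calc t * t ^ θ = t ^ (1 + θ) := by rw [Real.rpow_add ht0, Real.rpow_one]
      _ ≤ _ := ht
  have hlog : Tendsto (fun x : ℕ => Real.log (x : ℝ)) atTop atTop :=
    Real.tendsto_log_atTop.comp tendsto_natCast_atTop_atTop
  refine tendsto_atTop_mono' _ ?_ hlog
  filter_upwards [hlog.eventually h2, eventually_ge_atTop 1] with x hx hx1
  have hx0 : (0 : ℝ) < x := by exact_mod_cast hx1
  rwa [Real.exp_log hx0] at hx

lemma F_sigma (θ : ℝ) (h0 : 0 < θ) :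
    Tendsto (fun n : ℕ => (n : ℝ) / Real.log n ^ θ / ((ArithmeticFunction.sigma 1 n : ℕ) : ℝ))
      atTop (𝓝 0) := by
  have hlog : Tendsto (fun x : ℕ => Real.log (x : ℝ)) atTop atTop :=
    Real.tendsto_log_atTop.comp tendsto_natCast_atTop_atTop
  have h2 : Tendsto (fun x : ℕ => (Real.log (x : ℝ) ^ θ)⁻¹) atTop (𝓝 0) :=
    ((tendsto_rpow_atTop h0).comp hlog).inv_tendsto_atTop
  refine squeeze_zero' (Eventually.of_forall fun n => ?_) ?_ h2
  · have : 0 ≤ Real.log (n : ℝ) := Real.log_natCast_nonneg n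
    positivity
  · filter_upwards [eventually_ge_atTop 1] with n hn
    have hn0 : (0 : ℝ) < n := by exact_mod_cast hn
    have hl : 0 ≤ Real.log (n : ℝ) := Real.log_natCast_nonneg n
    have hs := le_sigma n
    have hs0 : (0 : ℝ) < ((ArithmeticFunction.sigma 1 n : ℕ) : ℝ) := lt_of_lt_of_le hn0 hs
    rw [div_le_iff₀ hs0, div_eq_inv_mul]
    exact mul_le_mul_of_nonneg_left hs (by positivity)

end Pool.Agent.Helper19.OWN.SigmaWin
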